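import Pool.Agent.H58.JU.Targets

/-!
# The top homology of the quaternionic projective space (row HPV)
-/

namespace Pool.Agent.H1.JU

open Pool.Agent.H58.JU Pool.Agent.H59 Pool.Agent.H48.FR Pool.Agent.H58.FL
open scoped RealInnerProductSpace Quaternion

noncomputable section

/-- the point -/
instance subHP0 : Subsingleton (HPn 0) := by
  refine ⟨fun P Q => ?_⟩
  have hP : PP.rep P 0 ≠ 0 := by
    intro h
    apply PP.rep_ne P
    funext i
    rw [Fin.fin_one_eq_zero i]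
    exact h
  have hQ : PP.rep Q 0 ≠ 0 := by
    intro h
    apply PP.rep_ne Q
    funext i
    rw [Fin.fin_one_eq_zero i]
    exact h
  refine (PP.mk_rep P).symm.trans (Eq.trans ?_ (PP.mk_rep Q))
  refine (PP.mk_eq_iff (PP.rep_ne P) (PP.rep_ne Q)).2
    ⟨PP.rep P 0 * (PP.rep Q 0)⁻¹, mul_ne_zero hP (inv_ne_zero hQ), ?_⟩
  funext i
  rw [Fin.fin_one_eq_zero i, Pi.smul_apply, smul_eq_mul, mul_assoc, inv_mul_cancel₀ hQ, mul_one]

/-- a point exists -/
theorem neHP (n : ℕ) : Nonempty (HPn n) :=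
  ⟨PP.mk (fun _ => 1) fun h => one_ne_zero (congrFun h 0)⟩

/-- HPV: the top homology of the quaternionic projective space. -/
theorem pf_HPV (hMVL : T_MVL) (hMVI : T_MVI) (hPUN : T_PUN) (hPNN : T_PNN) (hCTR : T_CTR)
    (hHPO : T_HPO) : T_HPV := by
  have key : ∀ n : ℕ, ∀ m : ℕ, 4 * n + 2 ≤ m → Van m (HPn n) := by
    intro n
    induction n with
    | zero =>
      intro m _
      have : Nonempty (HPn 0) := neHP 0
      have : Unique (HPn 0) := uniqueOfSubsingleton (Classical.arbitrary _)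
      have : ContractibleSpace (HPn 0) := inferInstance
      exact hCTR _ m
    | succ n ih =>
      intro m hm
      obtain ⟨O₁, O₂, o1, o2, hu, h1, h2, h3, h4⟩ := hHPO n
      obtain ⟨m', rfl⟩ : ∃ m', m = m' + 1 := ⟨m - 1, by omega⟩
      refine (hMVL _ O₁ O₂ o1 o2 hu m' (h1 _ (ih _ (by omega))) (h2 _)).1 (h3 _ ?_)
      exact (hPUN (4 * (n + 1))).1 m' (by omega)
  intro n
  refine ⟨key n, fun hn hV => ?_⟩
  obtain ⟨k, rfl⟩ : ∃ k, n = k + 1 := ⟨n - 1, by omega⟩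
  obtain ⟨O₁, O₂, o1, o2, hu, h1, h2, h3, h4⟩ := hHPO k
  refine hPNN (4 * (k + 1)) (h4 _ ?_)
  exact hMVI _ O₁ O₂ o1 o2 hu (4 * (k + 1)) (h1 _ (key k _ (by omega))) (h2 _) hV

end

end Pool.Agent.H1.JU
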