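import Pool.Agent.H58.JU.Targets

/-!
# Two points of the plane moved to the base point and to the standard line (row OPW)
-/

namespace Pool.Agent.H1.JU

open Pool.Agent.H58.JU
open Pool.Agent.H59.OP (CA P2 tf Pres Oct ro un rx cj one sw tf_sw tf_ro tf_un eq_bp)
open scoped RealInnerProductSpace

noncomputable section

variable {O : Type} [NormedAddCommGroup O] [InnerProductSpace ℝ O] [CA O]

/-- passage to a point with second entry zero, with all third entries kept -/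
theorem pass2 (B : P2 O) : ∃ φ : P2 O → P2 O, Pres φ ∧ (φ B).b = 0 ∧ ∀ A, (φ A).c = A.c := by
  obtain ⟨u, hu, hux⟩ : ∃ u : O, ‖u‖ = 1 ∧ u * B.x = ‖B.x‖ • one O := by
    by_cases hx : B.x = 0
    · exact ⟨one O, Pool.Agent.H59.OP.norm_one', by rw [hx]; simp⟩
    · have hn : ‖B.x‖ ≠ 0 := norm_ne_zero_iff.2 hx
      refine ⟨(‖B.x‖)⁻¹ • cj B.x, ?_, ?_⟩
      · rw [norm_smul, Pool.Agent.H59.OP.norm_cj, norm_inv, norm_norm, inv_mul_cancel₀ hn]
      · rw [Pool.Agent.H59.OP.smul_mm, Pool.Agent.H59.OP.cj_mm_self, smul_smul]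
        congr 1
        field_simp
  have hab := B.nx
  obtain ⟨ha, hb, hc⟩ := B.nonneg
  by_cases h0 : B.a + B.b = 0
  · exact ⟨id, fun _ _ => rfl, by simp only [id]; linarith, fun _ => rfl⟩
  · have hpos : 0 < B.a + B.b := lt_of_le_of_ne (by linarith) (Ne.symm h0)
    have hCS : Real.sqrt (B.a / (B.a + B.b)) ^ 2 + Real.sqrt (B.b / (B.a + B.b)) ^ 2 = 1 := by
      rw [Real.sq_sqrt (by positivity), Real.sq_sqrt (by positivity)]
      field_simp
    refine ⟨ro _ _ hCS ∘ un u hu, Pres.comp (tf_ro _ _ hCS) (tf_un u hu), ?_, fun _ => rfl⟩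
    have h1 : Real.sqrt (B.a / (B.a + B.b)) * Real.sqrt (B.b / (B.a + B.b)) =
        ‖B.x‖ / (B.a + B.b) := by
      rw [← Real.sqrt_mul (by positivity)]
      rw [Real.sqrt_eq_iff_mul_self_eq (by positivity) (by positivity)]
      field_simp
      nlinarith
    change Real.sqrt (B.b / (B.a + B.b)) ^ 2 * B.a -
      2 * (Real.sqrt (B.a / (B.a + B.b)) * Real.sqrt (B.b / (B.a + B.b))) *
        ⟪u * B.x, one O⟫ + Real.sqrt (B.a / (B.a + B.b)) ^ 2 * B.b = 0
    rw [h1, hux, inner_smul_left, Pool.Agent.H59.OP.inner_one_one, Real.sq_sqrt (by positivity),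
      Real.sq_sqrt (by positivity)]
    simp only [conj_trivial]
    field_simp
    nlinarith

/-- the exchange of the first two coordinates -/
def r01 (A : P2 O) : P2 O := ro 0 1 (by norm_num) A

theorem r01_a (A : P2 O) : (r01 A).a = A.b := by
  change (0 : ℝ) ^ 2 * A.a + 2 * (0 * 1) * ⟪A.x, one O⟫ + 1 ^ 2 * A.b = A.b
  ring

theorem r01_b (A : P2 O) : (r01 A).b = A.a := by
  change (1 : ℝ) ^ 2 * A.a - 2 * (0 * 1) * ⟪A.x, one O⟫ + 0 ^ 2 * A.b = A.a
  ring

theorem r01_c (A : P2 O) : (r01 A).c = A.c := rfl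

theorem sw_a (A : P2 O) : (sw A).a = A.a := rfl

theorem sw_b (A : P2 O) : (sw A).b = A.c := rfl

theorem sw_c (A : P2 O) : (sw A).c = A.b := rfl

theorem pres_r01 : Pres (r01 : P2 O → P2 O) := tf_ro 0 1 (by norm_num)

/-- OPW: two points of the plane may be moved to the base point and a point of a standard line. -/
theorem pf_OPW : T_OPW := by
  intro O _ _ _ c c'
  obtain ⟨φ₁, hφ₁, h1⟩ := Pool.Agent.H59.OP.trans_bp c
  obtain ⟨χ, hχ, h2, h3⟩ := pass2 (sw (r01 (φ₁ c')))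
  have hp : Pres (r01 ∘ sw ∘ χ ∘ sw ∘ r01 ∘ φ₁ : P2 O → P2 O) :=
    pres_r01.comp ((show Pres sw from tf_sw).comp (hχ.comp
      ((show Pres sw from tf_sw).comp (pres_r01.comp hφ₁))))
  refine ⟨r01 ∘ sw ∘ χ ∘ sw ∘ r01 ∘ φ₁, hp, ?_, ?_⟩
  · change r01 (sw (χ (sw (r01 (φ₁ c))))) = _
    rw [h1]
    have e1 : (r01 (sw (χ (sw (r01 (Pool.Agent.H59.OP.bp O)))))).a = 1 := by
      rw [r01_a, sw_b, h3, sw_c, r01_b]
      rfl
    have hn := (r01 (sw (χ (sw (r01 (Pool.Agent.H59.OP.bp O)))))).nonneg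
    have ht := (r01 (sw (χ (sw (r01 (Pool.Agent.H59.OP.bp O)))))).tr
    exact eq_bp (by linarith [hn.2.1, hn.2.2]) (by linarith [hn.2.1, hn.2.2])
  · change (r01 (sw (χ (sw (r01 (φ₁ c')))))).c = 0
    rw [r01_c, sw_c]
    exact h2

end

end Pool.Agent.H1.JU
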